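import Pool.Agent.SPH.Assembly6
import Pool.Agent.SPJ.Prime

/-!
# The de Rham-Betti conjecture for CM abelian varieties and abelian varieties of rank at most two

The definitions are in `Pool/Agent/DRB/Defs.lean` (abelian varieties over the algebraic numbers, period
matrix, de Rham-Betti subobjects of tensor spaces), `Pool/Agent/DRB/Defs3.lean` and
`Pool/Agent/DRB/Defs4.lean` (the class `Rank2CM`, Hodge relations between CM components), and
`Pool/Agent/DRB/Defs5.lean` (the homomorphism `μ` and sub-Hodge structures of tensor spaces).
-/

open scoped BigOperators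
open Matrix

namespace Pool.Agent.Results.MP_470b79_ag.AbelianMT

open Pool.Agent.DRB

/-- The simple `End(A) ⊗ ℂ`-modules have multiplicity one in `H_1(A, ℂ)`, they are conjugate under the
automorphisms of `ℂ`, and their number is `2 l`: `A` is isogenous to a power of a simple abelian variety of
dimension `l` with complex multiplication by a field of degree `2 l`. -/
def CMPower {g : ℕ} (A : AbVar g) (l : ℕ) : Prop :=
  (∀ p, A.IsComp p → A.comDim p = 1) ∧
  (∀ p q, A.IsComp p → A.IsComp q → ∃ σ : ℂ ≃ₐ[ℚ] ℂ, p.map σ = q) ∧
  {p | A.IsComp p}.ncard = 2 * l

/-- The class of abelian varieties of the theorem. -/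
def Class {g : ℕ} (A : AbVar g) : Prop :=
  A.Rank2CM ∨
  (∃ l : ℕ, l.Prime ∧ CMPower A l) ∨
  (g ≤ 3 ∧ ∀ p, A.IsComp p → A.comDim p = 1 ∨ (A.comDim p = 4 ∧ cc p = p))

/-- Let `A` be an abelian variety over the algebraic numbers in the class `Class`: for example a product
of abelian varieties with complex multiplication by abelian CM fields and of abelian varieties with real or
quaternionic multiplication of maximal degree, or a power of a simple abelian variety of prime dimension with
complex multiplication by an arbitrary field, or an abelian variety of dimension at most three without simple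
factors of dimension `> 1` whose endomorphism algebra is `ℚ` or an imaginary quadratic field.
A subspace of a tensor space of `H_1(A)` is a de Rham-Betti
subobject if and only if it is a rational sub-Hodge structure (so the de Rham-Betti group is the Mumford-Tate
group), and this group is the group of all similitudes of the Riemann form which commute with the
endomorphisms of `A` and satisfy the Hodge relations between the CM components. -/
theorem result : ∀ (g : ℕ) (A : AbVar g), Class A →
    (∀ (t : TData) (D : Submodule ℂ (TIdx t (Idx g) → ℂ)), IsDRB A t D ↔ IsHodge A t D) ∧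
    ∀ (x : GL (Idx g) ℂ) (ν : ℂˣ), InGdRB A x ν ↔
      (A.Comm (x : Matrix (Idx g) (Idx g) ℂ) ∧
        (x : Matrix (Idx g) (Idx g) ℂ)ᵀ * A.riem * x = (ν : ℂ) • A.riem ∧ A.HodgeRels x ν) := by
  intro g A hA
  have h : A.Rank2CM := by
    rcases hA with h | ⟨l, hl, h⟩ | ⟨hg, h⟩
    · exact h
    · exact Pool.Agent.SPJ.rank2CM_of_prime A l hl h
    · exact Pool.Agent.SPJ.rank2CM_of_dim_le_three A hg h
  exact (Pool.Agent.SPH.main6C g A h).symm

end Pool.Agent.Results.MP_470b79_ag.AbelianMT
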