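import Pool.Agent.NEX.Main

/-!
# The de Rham–Betti conjecture over all number fields of degree at most `D`, without exceptions,
for the Calabi–Yau varieties of the Dwork pencils near the Fermat point, and their products

`X_ψ : x_0 ^ N + ... + x_(N-1) ^ N = N ψ x_0 ... x_(N-1)`, `N = 2 g + 1 ≥ 5`, is a Calabi–Yau
variety of dimension `2 g - 1`; the part of its middle cohomology which is invariant under the
diagonal symmetries has rank `2 g`. Take `r` such varieties, `g = G (φ l)`, at the parameters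
`ψ_l = ρ_l / n`. For all `D` there are `δ > 0` and `n₀` such that for all `n ≥ n₀`, all different
positive rational numbers `ρ_l` with numerators and denominators at most `n ^ δ` and all number
fields `L` of degree at most `D`

(1) every torsor over `L` which contains the comparison point `(2 π i, period matrices)` contains
the whole torsor under the group of all tuples of similitudes (multiplier `mu ^ (2 g_l - 1)`);

(2) every de Rham–Betti class over `L` on every `H_{i_1} ⊗ ⋯ ⊗ H_{i_m} (k)` is invariant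
under this group and of Hodge type `(0, 0)`.

For example, if `n` is large enough, this holds for the quintic threefold with `ψ = 1 / n`.
-/

open scoped BigOperators

open Pool.Agent.DRC in
theorem Pool.Agent.Results.MP_470b79_ag.CalabiYauDRB.result (nF : ℕ) (G : Fin nF → ℕ)
    (hG : ∀ a, 2 ≤ G a) (r : ℕ) (φ : Fin r → Fin nF) (D : ℕ) :
    ∃ δ : ℝ, 0 < δ ∧ ∃ n₀ : ℕ, ∀ n : ℕ, n₀ ≤ n → ∀ ρ : Fin r → ℚ, Function.Injective ρ →
    (∀ i, 0 < ρ i ∧ ((ρ i).num : ℝ) ≤ (n : ℝ) ^ δ ∧ ((ρ i).den : ℝ) ≤ (n : ℝ) ^ δ) →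
    ∀ (L : IntermediateField ℚ ℂ), FiniteDimensional ℚ L → Module.finrank ℚ L ≤ D →
    (∀ H : Subgroup (Aut (fun l => 2 * G (φ l))),
      IsTorsor (fun l => 2 * G (φ l)) (fun l => ((ρ l / n : ℚ) : ℂ)) L H →
      ∀ x : Aut (fun l => 2 * G (φ l)), (∀ l, SimilR (2 * G (φ l)) ((ρ l / n : ℚ) : ℂ) (x.1 : ℂ)
        (x.2 l : Matrix (Fin (2 * G (φ l))) (Fin (2 * G (φ l))) ℂ)) → x ∈ H) ∧
    ∀ (m : ℕ) (k : ℤ) (i : Fin m → Fin r) (α : (∀ s, Fin (2 * G (φ (i s)))) → ℂ),
      IsDRB (fun l => 2 * G (φ l)) (fun l => ((ρ l / n : ℚ) : ℂ)) L m k i α →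
      IsHodge (fun l => 2 * G (φ l)) (fun l => ((ρ l / n : ℚ) : ℂ)) m k i α :=
  Pool.Agent.NEX.fiy_t nF G hG r φ D
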