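import Pool.Agent.K3M.Final

/-!
# The de Rham-Betti conjecture for products of Kuga-Satake abelian varieties and K3 surfaces

The definitions are in `Pool/Agent/DRB/Defs.lean` (abelian varieties over the algebraic numbers, period
matrix, de Rham-Betti subobjects of tensor spaces, de Rham-Betti group), `Pool/Agent/DRB/Defs5.lean`
(the homomorphism `μ` and sub-Hodge structures of tensor spaces), `Pool/Agent/K3E/Defs.lean` and
`Pool/Agent/K3C/Defs.lean` (Kuga-Satake structures with multiplication by a totally real field or by a CM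
field), and `Pool/Agent/K3P/Defs.lean` (homomorphisms, and isogenies to products).
-/

open scoped BigOperators
open Matrix

namespace Pool.Agent.Results.MP_470b79_ag.K3Products

open Pool.Agent.DRB Pool.Agent.K3E Pool.Agent.K3C Pool.Agent.K3P

/-- The condition on the CM field `E = ℚ(θ)`, where `P` is the minimal polynomial of `θ`: the degree of `E` is
two or twice a prime number; or the Galois group of the normal closure of `E` has a commutative subgroup which
is transitive on the roots of `P` (for example, `E` is abelian over `ℚ`); or some automorphism of `ℂ` exchanges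
one root of `P` with its complex conjugate and fixes the other roots; or `E` satisfies the condition `Trit`. -/
def FieldCond {g n m : ℕ} {A : AbVar g} (K : KSC A n m) : Prop :=
  K.P.natDegree = 2 ∨ (∃ p : ℕ, p.Prime ∧ K.P.natDegree = 2 * p) ∨
  (∃ G : Subgroup K.P.Gal, (∀ a ∈ G, ∀ b ∈ G, a * b = b * a) ∧
    ∀ x y : K.P.SplittingField, Polynomial.aeval x K.P = 0 → Polynomial.aeval y K.P = 0 →
      ∃ a ∈ G, a x = y) ∨
  (∃ (σ : ℂ ≃ₐ[ℚ] ℂ) (z : ℂ), Polynomial.aeval z K.P = 0 ∧ σ z = (starRingEnd ℂ) z ∧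
    ∀ w : ℂ, Polynomial.aeval w K.P = 0 → w ≠ z → w ≠ (starRingEnd ℂ) z → σ w = w) ∨
  K.Trit

/-- Let `A` be an abelian variety over the algebraic numbers which is isogenous to a product of abelian
varieties `B i` of Kuga-Satake type for quadratic spaces `T i` of K3 type, without nonzero homomorphisms
between different factors. Let `m` be the dimension of `T i` over its field `E i`. If `E i` is totally real, let
`m ≥ 3` and `m ≠ 5`. If `E i` is a CM field, let `m` be even or `m = 1`, and let `E i` satisfy `FieldCond`; for two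
different factors with CM fields let some automorphism of `ℂ` be the identity on the conjugates of the first
field and complex conjugation on the conjugates of the second one. Then the de Rham-Betti group of `A` is the
group of all pairs `(x, ν)`, where `x` commutes with the endomorphisms of `A`, the components of `x` normalize
the spaces `T i`, and `x` multiplies the Riemann form by `ν`; and all de Rham-Betti subobjects of all tensor
spaces of `H_1(A)` are sub-Hodge structures. -/
theorem result : ∀ (g : ℕ) (A : AbVar g) (r s : ℕ) (h : Fin (r + s) → ℕ) (B : ∀ i, AbVar (h i))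
    (D : Decomp A B), (∀ i j, i ≠ j → ∀ α, IsHom (B i) (B j) α → α = 0) →
    ∀ (n₁ m₁ : Fin r → ℕ) (K₁ : ∀ i, KSE (B (Fin.castAdd s i)) (n₁ i) (m₁ i))
      (n₂ m₂ : Fin s → ℕ) (K₂ : ∀ j, KSC (B (Fin.natAdd r j)) (n₂ j) (m₂ j)),
    (∀ i, 3 ≤ m₁ i ∧ m₁ i ≠ 5) → (∀ j, 1 ≤ m₂ j ∧ (Even (m₂ j) ∨ m₂ j = 1)) →
    (∀ j, FieldCond (K₂ j)) →
    (∀ j j', j ≠ j' → ∃ σ : ℂ ≃ₐ[ℚ] ℂ, (∀ z, Polynomial.aeval z (K₂ j).P = 0 → σ z = z) ∧
      ∀ z, Polynomial.aeval z (K₂ j').P = 0 → σ z = (starRingEnd ℂ) z) →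
    (∀ (x : GL (Idx g) ℂ) (ν : ℂˣ), InGdRB A x ν ↔
      ((∀ α ∈ A.EndQ, x.val * AbVar.toC α = AbVar.toC α * x.val) ∧
        (∀ i, ∀ Y ∈ (K₁ i).TC, D.blk (Fin.castAdd s i) x.val * Y * D.blk (Fin.castAdd s i) (x⁻¹).val ∈
          (K₁ i).TC) ∧
        (∀ j, ∀ Y ∈ (K₂ j).TC, D.blk (Fin.natAdd r j) x.val * Y * D.blk (Fin.natAdd r j) (x⁻¹).val ∈
          (K₂ j).TC) ∧
        x.valᵀ * A.riem * x.val = ν.val • A.riem)) ∧
    ∀ (t : TData) (E : Submodule ℂ (TIdx t (Idx g) → ℂ)), IsDRB A t E → IsHodge A t E := by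
  intro g A r s h B D hH n₁ m₁ K₁ n₂ m₂ K₂ c1 c2 hC hP
  refine Pool.Agent.K3M.mainM3 g A r s h B D hH n₁ m₁ K₁ n₂ m₂ K₂ c1 c2 (fun j => ?_) hP
  rcases hC j with h | h | h | h | h
  · exact Trit_proof _ _ _ _ (K₂ j) (Or.inl (Or.inl h))
  · exact Trit_proof _ _ _ _ (K₂ j) (Or.inl (Or.inr h))
  · exact Trit_proof _ _ _ _ (K₂ j) (Or.inr (Or.inr (Or.inl h)))
  · exact Trit_proof _ _ _ _ (K₂ j) (Or.inr (Or.inr (Or.inr h)))
  · exact h

end Pool.Agent.Results.MP_470b79_ag.K3Products
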