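import Pool.Agent.DRD.Asm2

/-!
# The de Rham–Betti conjecture over number fields of degree at most `D`, for explicit families of
hyperelliptic curves with Mumford–Tate group `GSp_2g` and their products

`f_1, ..., f_nF` are monic polynomials of degrees `2 G_a + 1` with rational coefficients, such that
`f_a` has `2 G_a` different critical values, all different from `0`, and the sets of the critical
values of two of them are not proportional by a positive rational number. The curves are
`C_l : y ^ 2 = f_(φ l) (x) + ρ_l / n`, `l = 1, ..., r`. For all `D` there are `δ > 0` and `n₀` such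
that for all `n ≥ n₀` there is a set `S` of at most `r (1 + ∑ G_a (2 G_a + 1))` rational numbers
with the following property, if the `ρ_l` are positive rational numbers outside `S`, numerators and
denominators at most `n ^ δ`, different for equal `φ l`: for every number field `L` of degree at
most `D`

(1) every torsor over `L` which contains the comparison point `(2 π i, period matrices)` contains
the whole torsor under the group of all tuples of symplectic similitudes with a common multiplier;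

(2) every de Rham–Betti class over `L` on every `H¹(C_{i_1}) ⊗ ⋯ ⊗ H¹(C_{i_m}) (k)` is invariant
under this group and of Hodge type `(0, 0)`.
-/

open scoped BigOperators

open Pool.Agent.HGP Pool.Agent.GPH Pool.Agent.DG2 Pool.Agent.DRD in
theorem Pool.Agent.Results.MP_470b79_ag.NumberFieldDRB.result (nF : ℕ) (G : Fin nF → ℕ)
    (f : ∀ a, Fin (2 * G a + 1) → ℚ) (hG : ∀ a, 0 < G a)
    (h0 : ∀ a, (0 : ℂ) ∉ critVals (crv (G a) (f a) 0))
    (hc : ∀ a, (critVals (crv (G a) (f a) 0)).ncard = 2 * G a)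
    (hp : ∀ a b, a ≠ b → ∀ ρ : ℚ, 0 < ρ →
      (fun v => (ρ : ℂ) * v) '' critVals (crv (G a) (f a) 0) ≠ critVals (crv (G b) (f b) 0))
    (r : ℕ) (φ : Fin r → Fin nF) (D : ℕ) : ∃ δ : ℝ, 0 < δ ∧ ∃ n₀ : ℕ, ∀ n : ℕ, n₀ ≤ n →
    ∃ S : Finset ℚ, S.card ≤ r * (1 + ∑ a, G a * (2 * G a + 1)) ∧
    ∀ ρ : Fin r → ℚ, (∀ i j, i ≠ j → φ i = φ j → ρ i ≠ ρ j) →
    (∀ i, 0 < ρ i ∧ ρ i ∉ S ∧ ((ρ i).num : ℝ) ≤ (n : ℝ) ^ δ ∧
      ((ρ i).den : ℝ) ≤ (n : ℝ) ^ δ) →
    ∀ L : IntermediateField ℚ ℂ, FiniteDimensional ℚ L → Module.finrank ℚ L ≤ D →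
    (∀ (γ : ∀ l, Fin (2 * G (φ l)) → CPath (crv (G (φ l)) (f (φ l)) (ρ l / n))),
      IsBasis (g := fun l => G (φ l)) γ → ∀ H : Subgroup (Aut (fun l => G (φ l))),
      IsTorsor (g := fun l => G (φ l)) L γ H →
      ∀ x : Aut (fun l => G (φ l)), (∀ l, Simil (x.1 : ℂ)
        (x.2 l : Matrix (Ix (G (φ l))) (Ix (G (φ l))) ℂ)) → x ∈ H) ∧
    ∀ (m : ℕ) (k : ℤ) (i : Fin m → Fin r) (α : (∀ s, Ix (G (φ (i s)))) → ℂ),
      IsDRB (g := fun l => G (φ l))
        (fun l => crv (G (φ l)) (f (φ l)) (ρ l / n)) L m k i α →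
      Pool.Agent.DRH.IsHodge (g := fun l => G (φ l)) m k i α :=
  Pool.Agent.DRD.final nF G f hG h0 hc hp r φ D
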